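import Pool.Agent.UPQ.K.Defs
import Pool.Agent.QD.Inst
import Pool.Agent.THF.T2.Two

/-!
# UPQ/K-Inst: two classes which differ only at `v0`, for any `v0` outside a finite set

As `inst` (QD/Inst.lean); `F0 = S'` is the set of `exists_good`, and the place `v0 ∉ S'` is given.
The elements at `v0` come from `LD.exists_nonres` (a nonsquare unit) and `nic_pi` (order one).
-/

namespace Pool.Agent.UPQ

open NumberField IsDedekindDomain Pool.Agent.HWR Pool.Agent.QD Pool.Agent.QD.In Pool.Agent.LD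
  Pool.Agent.MD Pool.Agent.THF

theorem instQ (K : Type) [Field K] [NumberField K] (T : Finset ℕ) (hTp : ∀ p ∈ T, p.Prime)
    (hT : ∀ p : ℕ, p.Prime → p < 101 → p ∈ T) (D : LocData T) (a : ℕ → ℝ)
    (ha : ∀ q : ℕ, |a q| ≤ 2 * Real.sqrt q) (ha2 : SqRel K T a) :
    ∃ F0 : Finset (HeightOneSpectrum (𝓞 K)), ∀ v0 : HeightOneSpectrum (𝓞 K), v0 ∉ F0 →
    ∃ (T1 : Finset ℕ) (S : Finset (HeightOneSpectrum (𝓞 K))) (c1 c2 : GS S) (Phi : ℂ → ℂ),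
      Nic T1 S ∧ (∀ v, ¬ Away K T v → v ∈ S) ∧ c1 ≠ 1 ∧ c2 ≠ 1 ∧ Away K T v0 ∧
      (∀ w : ℂ, w.re < 0 → (sys S D a).M c1 w =
        ((Real.sqrt (nrm v0) : ℂ) * (1 + (nrm v0 : ℂ) ^ (w - 3 / 2))) * Phi w) ∧
      (∀ w : ℂ, w.re < 0 → (sys S D a).M c2 w = (1 + (nrm v0 : ℂ) ^ (w - 1 / 2)) * Phi w) ∧
      (∃ w : ℂ, w.re < 0 ∧ (sys S D a).M c1 w ≠ 0) ∧
      (∃ b0 : ℝ, ∀ s : ℂ, s.re < b0 → s.im ≠ 0 → (sys S D a).GG c2 s ≠ 0) ∧
      (∀ s : ℂ, s.re < 1 / 2 →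
        (sys S D a).GG c1 s *
            (1 + (a (nrm v0) : ℂ) * (nrm v0 : ℂ) ^ (1 - s) + (nrm v0 : ℂ) ^ (3 - 2 * s)) =
          (sys S D a).GG c2 s * ((nrm v0 : ℂ) *
            (1 + (a (nrm v0) : ℂ) * (nrm v0 : ℂ) ^ (-s) + (nrm v0 : ℂ) ^ (1 - 2 * s)))) := by
  classical
  have h2T : 2 ∈ T := hT 2 Nat.prime_two (by norm_num)
  obtain ⟨T1, S', hTT, hT1p, hO, hG⟩ := exists_good K T hTp h2T
  have hS' : Nic T1 S' := ⟨hT1p, hTT h2T, S', hO, hG, subset_rfl⟩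
  refine ⟨S', fun v0 hv0 => ?_⟩
  have h20 : (2 : 𝓞 K) ∉ v0.asIdeal := nic_two hS' v0 hv0
  obtain ⟨e, he⟩ := LD.exists_nonres v0 h20
  obtain ⟨p, hp1, -⟩ := nic_pi hS' v0 hv0
  have hp : Odd (ordK v0 p) := by rw [hp1]; exact odd_one
  have hS : Nic T1 (insert v0 S') := nic_insert hS' v0
  have hST' : ∀ v, ¬ Away K T v → v ∈ S' := by
    intro v hv
    refine (hO v).2 fun h => hv fun q hq => h q (hTT hq)
  have hST : ∀ v, ¬ Away K T v → v ∈ insert v0 S' := fun v hv =>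
    Finset.mem_insert_of_mem (hST' v hv)
  have h2' : ∀ v : HeightOneSpectrum (𝓞 K), (2 : 𝓞 K) ∈ v.asIdeal → v ∈ S' := hG.1
  have h2 : ∀ v : HeightOneSpectrum (𝓞 K), (2 : 𝓞 K) ∈ v.asIdeal → v ∈ insert v0 S' := fun v hv =>
    Finset.mem_insert_of_mem (h2' v hv)
  have hv0T : Away K T v0 := by
    by_contra h
    exact hv0 (hST' v0 h)
  obtain ⟨x, w0, hw0, hMx⟩ := exists_Mx_ne hS'
  obtain ⟨z1, hz1, hz1'⟩ := weak_approx S' v0 hv0 x e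
  obtain ⟨z2, hz2, hz2'⟩ := weak_approx S' v0 hv0 x p
  have hu1 : uK v0 z1 = -1 := by rw [(uK_congr' v0 hz1').1, he]
  have ho2 : Odd (ordK v0 z2) := (uK_congr' v0 hz2').2.2 hp
  have hq2 : 2 ≤ nrm v0 := two_le_nrm v0
  have hM1 : ∀ w : ℂ, Mx (insert v0 S') z1 w = Mx S' x w * m0 v0 e p z1 w := fun w => by
    rw [M_split v0 he hp hS' hv0 z1 w, Mx_congr hS' hz1 w]
  have hM2 : ∀ w : ℂ, Mx (insert v0 S') z2 w = Mx S' x w * m0 v0 e p z2 w := fun w => by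
    rw [M_split v0 he hp hS' hv0 z2 w, Mx_congr hS' hz2 w]
  have h12 : z1 / z2 ∈ QD.HSub S' := by
    have := (QD.HSub S').div_mem hz1 hz2
    rwa [div_div_div_cancel_right] at this
  have hGG : ∀ z : Kˣ, (sys (insert v0 S') D a).GG (QuotientGroup.mk z) =
      GGX (insert v0 S') D a z := fun z => GGX_congr D _ h2 hST (out_div _ z)
  have hne : ∀ z : Kˣ, uK v0 z ≠ 1 → (QuotientGroup.mk z : GS (insert v0 S')) ≠ 1 := by
    intro z hz h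
    have h3 : z ∈ QD.HSub (insert v0 S') := (QuotientGroup.eq_one_iff z).1 h
    exact hz (uK_of_LSq (h3.1 v0 (Finset.mem_insert_self _ _)))
  refine ⟨T1, insert v0 S', QuotientGroup.mk z1, QuotientGroup.mk z2,
    fun w => Mx S' x w * ph (nrm v0) w, hS, hST, ?_, ?_, hv0T, ?_, ?_, ?_, ?_, ?_⟩
  · exact hne z1 (by rw [hu1]; norm_num)
  · refine hne z2 ?_
    rw [uK_eq_zero_iff.2 ho2]
    norm_num
  · intro w hw
    show Mx (insert v0 S') z1 w = _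
    rw [hM1 w, m0_e v0 h20 he hp hu1 hw]
    ring
  · intro w hw
    show Mx (insert v0 S') z2 w = _
    rw [hM2 w, m0_p v0 h20 he hp ho2 hw]
    ring
  · refine ⟨w0, hw0, ?_⟩
    show Mx (insert v0 S') z1 w0 ≠ 0
    rw [hM1 w0, m0_e v0 h20 he hp hu1 hw0]
    exact mul_ne_zero hMx (mul_ne_zero (fac_ne hq2 hw0) (ph_ne hq2 hw0))
  · obtain ⟨b0, hb0⟩ := GGX_ne D (insert v0 S') hT ha z2
    refine ⟨b0, fun s hs him => ?_⟩
    rw [hGG z2]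
    exact hb0 s hs him
  · intro s hs
    rw [hGG z1, hGG z2]
    exact GGX_rel D S' hT ha ha2 h2' hST' v0 hv0 h12 hu1 ho2 hs

end Pool.Agent.UPQ
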