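import Pool.Agent.UPQ.K.Defs

/-!
# UPQ/K-Lm: the functions `LmQ` from `HWQ`

The completed L-function of `K(√x)` times `Q`: from `HWQ` for the field `(qf hx).L`; the functional equation
holds where `Q s` is not zero, hence everywhere by continuity.
-/

namespace Pool.Agent.UPQ

open NumberField IsDedekindDomain Pool.Agent.HWR Pool.Agent.QD Pool.Agent.QD.In Pool.Agent.LD
  Pool.Agent.MD Pool.Agent.THF

theorem isLmQ {K : Type} [Field K] [NumberField K] {T : Finset ℕ} (D : LocData T)
    (hT : ∀ p : ℕ, p.Prime → p < 101 → p ∈ T) {a : ℕ → ℝ}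
    (ha : ∀ q : ℕ, |a q| ≤ 2 * Real.sqrt q) {κ : ℂ} (hκ : κ = 1 ∨ κ = -1) {Q : Polynomial ℂ}
    (hQ : Q ≠ 0) (hsym : ∀ s : ℂ, Q.eval (2 - s) = κ * Q.eval s)
    (HL : ∀ (L : Type) [Field L] [NumberField L] [Algebra K L], Module.finrank K L = 2 →
      HWQ D a Q L) (x : Kˣ) (hx : ¬ IsSquare x) :
    IsLmQ D a κ (fun s => Q.eval s) x (LmQ D a κ (fun s => Q.eval s) x) := by
  obtain ⟨A, h1, h2, h3, h4⟩ := HL (qf hx).L (qf hx).deg
  have hw : D.w (qf hx).L = wx D x := by
    unfold LocData.w wx nr nc sgx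
    simp only [dif_neg hx]
  have hA : D.A (qf hx).L = dd x ^ 2 * cdx D x := by
    unfold LocData.A dd cdx
    simp only [dif_neg hx, sq_abs]
  have hf : Module.finrank ℚ (qf hx).L = 2 * Module.finrank ℚ K := by
    rw [← Module.finrank_mul_finrank ℚ K (qf hx).L, (qf hx).deg, mul_comm]
  have hpl : ∀ s : ℂ, D.pl (qf hx).L s = plx D x s := by
    intro s
    unfold plx
    rw [dif_neg hx]
  have htt : ∀ v : HeightOneSpectrum (𝓞 K), ty K (qf hx).L v = tt x v := by
    intro v
    unfold tt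
    rw [dif_neg hx]
  have hκ2 : κ * κ = 1 := by
    rcases hκ with h | h <;> rw [h] <;> ring
  have hfe : ∀ s : ℂ, Q.eval s ≠ 0 → A s = κ * wx D x * A (2 - s) := by
    intro s hs
    have h5 := h4 s
    rw [hsym s, hw] at h5
    have h6 : Q.eval s * (A s - κ * wx D x * A (2 - s)) = 0 := by
      linear_combination κ * h5 - A s * Q.eval s * hκ2
    have h7 := (mul_eq_zero.1 h6).resolve_left hs
    linear_combination h7
  have hden : Dense {s : ℂ | Q.eval s = 0}ᶜ :=
    (Polynomial.finite_setOfPred_isRoot hQ).countable.dense_compl ℝ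
  have hcon : A = fun s => κ * wx D x * A (2 - s) := by
    refine Continuous.ext_on hden h1.continuous ?_ fun s hs => hfe s hs
    exact continuous_const.mul (h1.continuous.comp (continuous_const.sub continuous_id))
  refine Classical.epsilon_spec (p := IsLmQ D a κ (fun s => Q.eval s) x) ⟨A, h1, h2, ?_, ?_⟩
  · intro s
    exact congrFun hcon s
  · intro s hs
    rw [h3 s hs, LocData.Lam, hA, hf, hpl, LT_quad' (qf hx).L (qf hx).deg ha T hT hs]
    simp only [htt, LX]

end Pool.Agent.UPQ
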