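import Pool.Agent.UPQ.K.UX
import Pool.Agent.THF.K.OmK

/-!
# UPQ/K-Sq: the function of the square class

`LX D a 1 s = Lam K s ^ 2` (all ingredients are squares for the class of `1`), and `LX_UX` for `x = 1` gives
`LX * UX = Ls ^ 2` since `uK v 1 = 1`.
-/

namespace Pool.Agent.UPQ

open NumberField IsDedekindDomain Pool.Agent.HWR Pool.Agent.QD Pool.Agent.QD.In Pool.Agent.LD
  Pool.Agent.MD Pool.Agent.THF

private theorem sqq_cd_pos {T : Finset ℕ} (D : LocData T) (F : Type) [Field F] [NumberField F] :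
    0 < D.cd F := by
  classical
  unfold LocData.cd
  refine Finset.prod_pos fun p _ => ?_
  split_ifs with h
  · have := Fact.mk h
    exact D.cond_pos p _
  · exact one_pos

private theorem sqq_prod {K : Type} [Field K] [NumberField K] {T : Finset ℕ} {a : ℕ → ℝ}
    (hT : ∀ p : ℕ, p.Prime → p < 101 → p ∈ T)
    (ha : ∀ q : ℕ, |a q| ≤ 2 * Real.sqrt q) {s : ℂ} (hs : 3 / 2 < s.re) :
    ∏' v : {v : HeightOneSpectrum (𝓞 K) // Away K T v}, FF a (nrm v.1) ((1 : ℤ) : ℂ) s =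
      LT K a T s ^ 2 := by
  have h1 := sum_FF (K := K) ha T hT (fun _ => 0) (fun _ => Or.inr (Or.inr rfl)) hs
  have e0 : ∀ q : ℕ, FF a q ((0 : ℤ) : ℂ) s = efac a q s := by
    intro q
    unfold Pool.Agent.HWR.FF
    rw [if_neg (by simp), if_neg (by simp)]
  have h2 : Multipliable fun v : {v : HeightOneSpectrum (𝓞 K) // Away K T v} =>
      efac a (nrm v.1) s := by
    have h3 := multipliable_one_add_of_summable h1
    refine h3.congr fun v => ?_
    rw [e0]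
    ring
  unfold Pool.Agent.HWR.LT
  rw [pow_two, ← Multipliable.tprod_mul h2 h2]
  refine tprod_congr fun v => ?_
  unfold Pool.Agent.HWR.FF
  rw [if_pos (by simp), F1, pow_two]

private theorem sqq_LX {K : Type} [Field K] [NumberField K] {T : Finset ℕ} (D : LocData T)
    {a : ℕ → ℝ} (hT : ∀ p : ℕ, p.Prime → p < 101 → p ∈ T)
    (ha : ∀ q : ℕ, |a q| ≤ 2 * Real.sqrt q) {x : Kˣ} (hx : IsSquare x) {s : ℂ}
    (hs : 3 / 2 < s.re) : LX D a x s = D.Lam a K s ^ 2 := by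
  have htt : ∀ v : HeightOneSpectrum (𝓞 K), tt x v = 1 := fun v => dif_pos hx
  have hdd : dd x = (NumberField.discr K : ℝ) ^ 2 := dif_pos hx
  have hcd : cdx D x = D.cd K ^ 2 := dif_pos hx
  have hpl : plx D x s = D.pl K s ^ 2 := dif_pos hx
  have hA : dd x ^ 2 * cdx D x = D.A K * D.A K := by
    unfold LocData.A
    rw [hdd, hcd]
    ring
  have hA0 : 0 ≤ D.A K := by
    unfold LocData.A
    exact mul_nonneg (sq_nonneg _) (sqq_cd_pos D K).le
  unfold LX LocData.Lam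
  simp only [htt]
  rw [sqq_prod hT ha hs, hpl, hA, Complex.ofReal_mul, Complex.mul_cpow_ofReal_nonneg hA0 hA0,
    two_mul, pow_add, ← div_pow]
  ring

theorem sq_eq {K : Type} [Field K] [NumberField K] {T : Finset ℕ} (D : LocData T) {a : ℕ → ℝ}
    (S : Finset (HeightOneSpectrum (𝓞 K)))
    (h2 : ∀ v : HeightOneSpectrum (𝓞 K), (2 : 𝓞 K) ∈ v.asIdeal → v ∈ S)
    (hST : ∀ v, ¬ Away K T v → v ∈ S) (hT : ∀ p : ℕ, p.Prime → p < 101 → p ∈ T)
    (ha : ∀ q : ℕ, |a q| ≤ 2 * Real.sqrt q) (ha2 : SqRel K T a) {s : ℂ}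
    (hs : 3 / 2 < s.re) :
    D.Lam a K s ^ 2 * UX D a S (1 : Kˣ) s = (sys S D a).Ls s ^ 2 := by
  have hu : ∀ v : Io S, uK v.1 (1 : Kˣ) = 1 := fun v => Pool.Agent.QD.uK_one v.1
  have h := LX_UX D S h2 hST hT ha ha2 (1 : Kˣ) hs
  rw [sqq_LX D hT ha ⟨1, (mul_one 1).symm⟩ hs] at h
  rw [h]
  have hL : (sys S D a).Ls s = ∏' v : Io S, Pool.Agent.QD.In.ef a (nrm v.1) 1 s := rfl
  rw [hL, pow_two]
  congr 1
  refine tprod_congr fun v => ?_
  rw [hu v]
  norm_num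

end Pool.Agent.UPQ
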