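import Pool.Agent.UPQ.K.UX
import Pool.Agent.LD.I.Sys0
import Pool.Agent.THF.K.IsKn

/-!
# UPQ/K-Sys: the axioms of the system `sysQ`

The system `sysQ` differs from `sys` only by the functions `ell` (with the factor `Q`) and by the
constant `κ` in `GG`.
-/

namespace Pool.Agent.UPQ

open NumberField IsDedekindDomain Pool.Agent.HWR Pool.Agent.QD Pool.Agent.QD.In Pool.Agent.LD
  Pool.Agent.MD Pool.Agent.THF

variable {K : Type} [Field K] [NumberField K] {T : Finset ℕ} (D : LocData T) {a : ℕ → ℝ}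
  {T1 : Finset ℕ} {S : Finset (HeightOneSpectrum (𝓞 K))} (κ : ℂ) (Q : ℂ → ℂ)

private theorem Sys_ellcQ {b : Io S →₀ ℕ} {c : GS S} (h : Rel S b c) :
    ∃ x : Kˣ, (∀ v : Io S, ordK v.1 x = (b v : ℤ)) ∧ (QuotientGroup.mk x : GS S) = c ∧
      ellcQ D a κ Q S b c = ellQ D a κ Q S x := by
  refine ⟨h.choose, h.choose_spec.1, h.choose_spec.2, ?_⟩
  funext w
  unfold ellcQ
  rw [dif_pos h]

theorem isSys0Q (hS : Nic T1 S) (hST : ∀ v, ¬ Away K T v → v ∈ S)
    (hT : ∀ p : ℕ, p.Prime → p < 101 → p ∈ T)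
    (ha : ∀ q : ℕ, |a q| ≤ 2 * Real.sqrt q) (ha2 : SqRel K T a) :
    IsSys0 (sysQ D a κ Q S) := by
  have h := isSys0 D hS hST hT ha ha2
  exact
    { cnt := h.cnt
      hN := h.hN
      sumN := h.sumN
      hlam := h.hlam
      B_mul := h.B_mul
      B_comm := h.B_comm
      B_sq := h.B_sq
      R_ex := h.R_ex
      R_one := h.R_one
      R_coset := h.R_coset
      U_perp := h.U_perp
      u_odd := h.u_odd
      u_even := h.u_even
      recip := h.recip
      R_two := h.R_two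
      u_two := h.u_two
      Zf_diff := h.Zf_diff
      Zf_ord := h.Zf_ord
      Zf_eq := h.Zf_eq
      Zf_fe := h.Zf_fe
      Gam_diff := h.Gam_diff
      Gam_bd := h.Gam_bd }

private theorem Sys_strip {c : ℝ} {F : ℂ → ℂ} (k : ℂ) (h : PolyStrip c F) :
    PolyStrip c fun s => k * F s := by
  intro x y hy
  obtain ⟨A, C, hA, hC, hb⟩ := h x y hy
  refine ⟨A, ‖k‖ * C, hA, by positivity, fun s h1 h2 => ?_⟩
  rw [norm_mul, mul_assoc]
  exact mul_le_mul_of_nonneg_left (hb s h1 h2) (norm_nonneg _)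

theorem isAllQ (hS : Nic T1 S) (hST : ∀ v, ¬ Away K T v → v ∈ S)
    (hT : ∀ p : ℕ, p.Prime → p < 101 → p ∈ T)
    (ha : ∀ q : ℕ, |a q| ≤ 2 * Real.sqrt q) (ha2 : SqRel K T a)
    (hL : ∀ x : Kˣ, ¬ IsSquare x → IsLmQ D a κ Q x (LmQ D a κ Q x)) :
    IsAll (sysQ D a κ Q S) Q := by
  have h2 : ∀ v : HeightOneSpectrum (𝓞 K), (2 : 𝓞 K) ∈ v.asIdeal → v ∈ S := by
    intro v hv
    by_contra h
    exact nic_two hS v h hv
  have hsq : ∀ {b : Io S →₀ ℕ} {c : GS S} {x : Kˣ},
      (∀ v : Io S, ordK v.1 x = (b v : ℤ)) → (QuotientGroup.mk x : GS S) = c →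
      ¬ (sysQ D a κ Q S).Sq b c → ¬ IsSquare x :=
    fun hx hc hn => not_sq_of (D := D) (a := a) hS hx hc hn
  constructor
  · -- ell_diff
    intro b c h hn
    obtain ⟨x, hx, hc, he⟩ := Sys_ellcQ D (a := a) κ Q h
    have hns := hsq hx hc hn
    show Differentiable ℂ (ellcQ D a κ Q S b c)
    rw [he]
    exact (hL x hns).1.mul (UX_diff D S x)
  · intro b c h hn
    obtain ⟨x, hx, hc, he⟩ := Sys_ellcQ D (a := a) κ Q h
    have hns := hsq hx hc hn
    show FinOrd (ellcQ D a κ Q S b c)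
    rw [he]
    exact Pool.Agent.QD.In.finOrd_mul (hL x hns).2.1 (UX_ord D S x)
  · -- ell_eq
    intro b c h hn s hs
    obtain ⟨x, hx, hc, he⟩ := Sys_ellcQ D (a := a) κ Q h
    have hns := hsq hx hc hn
    show ellcQ D a κ Q S b c s = _
    rw [he]
    show LmQ D a κ Q x s * UX D a S x s = _
    rw [(hL x hns).2.2.2 s hs, mul_assoc, LX_UX D S h2 hST hT ha ha2 x hs]
    congr 2
    refine tprod_congr fun v => ?_
    show _ = Pool.Agent.QD.In.ef a (nrm v.1) (uc S v b c) s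
    rw [uc_of hS hx hc v]
  · -- ell_fe
    intro b c h hn s hs
    obtain ⟨x, hx, hc, he⟩ := Sys_ellcQ D (a := a) κ Q h
    have hns := hsq hx hc hn
    show ellcQ D a κ Q S b c s = _ * (κ * (sys S D a).GG c s) * ellcQ D a κ Q S b c (2 - s)
    rw [he]
    have e1 : (sysQ D a κ Q S).odd b = oddN S x := (oddN_eq S x b hx).symm
    have e2 : (sys S D a).GG c = GGX S D a x := by
      show GGX S D a (Quotient.out c) = GGX S D a x
      rw [← hc]
      exact GGX_congr D S h2 hST (out_div S x)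
    rw [e1, e2]
    show LmQ D a κ Q x s * UX D a S x s = _ * (LmQ D a κ Q x (2 - s) * UX D a S x (2 - s))
    have h3 := UX_fe D S hT ha x hs
    have h4 := (hL x hns).2.2.1 s
    linear_combination (UX D a S x s) * h4 + κ * LmQ D a κ Q x (2 - s) * h3
  · -- GG_diff
    intro c s hs
    show DifferentiableWithinAt ℂ (fun s => κ * GGX S D a (Quotient.out c) s) _ s
    exact ((GGX_diff D S hT ha _ hs).const_mul κ).differentiableWithinAt
  · intro c
    exact Sys_strip κ (GGX_bd D S hT ha (Quotient.out c))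

end Pool.Agent.UPQ
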