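import Pool.Agent.UPQ.A.Main
import Pool.Agent.UPQ.K.Sys
import Pool.Agent.UPQ.K.Lm
import Pool.Agent.UPQ.K.Sq
import Pool.Agent.UPQ.K.Inst
import Pool.Agent.UPQ.L.Contr
import Pool.Agent.UPQ.L.Mul
import Pool.Agent.UPQ.L.Line
import Pool.Agent.QD.F.Trace

/-!
# UPQ/K-Core: the core theorem (paper section 1)
-/

namespace Pool.Agent.UPQ

open NumberField IsDedekindDomain Pool.Agent.HWR Pool.Agent.QD Pool.Agent.QD.In Pool.Agent.LD
  Pool.Agent.MD Pool.Agent.THF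

private theorem ext_real {φ ψ : ℂ → ℂ} (hφ : Continuous φ) (hψ : Continuous ψ) {β : ℝ}
    (h : ∀ s : ℂ, s.re < β → s.im ≠ 0 → φ s = ψ s) : ∀ s : ℂ, s.re < β → φ s = ψ s := by
  intro s hs
  by_cases him : s.im = 0
  · have h1 : Continuous fun x : ℝ => φ (s + (x : ℂ) * Complex.I) := by fun_prop
    have h2 : Continuous fun x : ℝ => ψ (s + (x : ℂ) * Complex.I) := by fun_prop
    have h3 := Continuous.ext_on (dense_compl_singleton (0 : ℝ)) h1 h2 fun x hx => by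
      have hx' : x ≠ 0 := hx
      refine h _ ?_ ?_
      · simpa using hs
      · simpa [him] using hx'
    have h4 := congrFun h3 0
    simpa using h4
  · exact h s hs him

/-- **Core theorem.** -/
theorem core {T : Finset ℕ} (hTp : ∀ p ∈ T, p.Prime)
    (hT : ∀ p : ℕ, p.Prime → p < 101 → p ∈ T) (D : LocData T) {a : ℕ → ℝ}
    (ha : ∀ q : ℕ, |a q| ≤ 2 * Real.sqrt q) (hfr : FrobRel T a)
    (haz : ∀ q : ℕ, ∃ n : ℤ, a q = n) (K : Type) [Field K] [NumberField K] {κ : ℂ}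
    (hκ : κ = 1 ∨ κ = -1) {Q P R : Polynomial ℂ} (hQ : Q ≠ 0)
    (hsym : ∀ s : ℂ, Q.eval (2 - s) = κ * Q.eval s) (hPR : P * Q = R ^ 2) {t0 : ℂ}
    (h1 : 1 ≤ t0.re) (h2 : t0.re ≤ 3 / 2) (hP : P.eval t0 = 0)
    (HL : ∀ (L : Type) [Field L] [NumberField L] [Algebra K L], Module.finrank K L = 2 →
      HWQ D a Q L)
    {AK : ℂ → ℂ} (hA : Differentiable ℂ AK)
    (hAe : ∀ s : ℂ, 3 / 2 < s.re → AK s = R.eval s * D.Lam a K s) : AK t0 = 0 := by
  classical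
  by_contra hne
  have ha2 : SqRel K T a := sqRel_of_frob K T a hfr
  obtain ⟨F0, hF0⟩ := instQ K T hTp hT D a ha ha2
  have hLm := isLmQ D hT ha hκ hQ hsym HL
  have hMul := isMul_poly hQ
  have hκ0 : κ ≠ 0 := by
    rcases hκ with h | h <;> rw [h] <;> norm_num
  refine noLine K ha haz h1 h2 F0 fun v0 hv0 => ?_
  obtain ⟨T1, S, c1, c2, Phi, hS, hST, hc1, hc2, hv0T, hM1, hM2, hMne, hGne, hGG⟩ := hF0 v0 hv0
  have h2S : ∀ v : HeightOneSpectrum (𝓞 K), (2 : 𝓞 K) ∈ v.asIdeal → v ∈ S := by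
    intro v hv
    by_contra h
    exact nic_two hS v h hv
  have hq := nrm_away K T hT v0 hv0T
  have hq0 : (nrm v0 : ℂ) ≠ 0 := by
    have : nrm v0 ≠ 0 := by omega
    exact_mod_cast this
  have hd1 : Differentiable ℂ (fun w : ℂ => (Real.sqrt (nrm v0) : ℂ) *
      (1 + (nrm v0 : ℂ) ^ (w - 3 / 2))) := by
    intro w
    refine DifferentiableAt.const_mul (DifferentiableAt.const_add _ ?_) _
    exact DifferentiableAt.const_cpow (by fun_prop) (Or.inl hq0)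
  have hd2 : Differentiable ℂ (fun w : ℂ => 1 + (nrm v0 : ℂ) ^ (w - 1 / 2)) := by
    intro w
    refine DifferentiableAt.const_add _ ?_
    exact DifferentiableAt.const_cpow (by fun_prop) (Or.inl hq0)
  have hge : ∀ t : ℂ, 3 / 2 < t.re → AK t ^ 2 * UX D a S (1 : Kˣ) t =
      P.eval t * Q.eval t * (sysQ D a κ (fun s => Q.eval s) S).Ls t ^ 2 := by
    intro t ht
    have e1 : P.eval t * Q.eval t = R.eval t ^ 2 := by
      rw [← Polynomial.eval_mul, hPR, Polynomial.eval_pow]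
    have e2 : (sysQ D a κ (fun s => Q.eval s) S).Ls t = (sys S D a).Ls t := rfl
    rw [e1, e2, ← sq_eq D S h2S hST hT ha ha2 ht, hAe t ht]
    ring
  have hg0 : AK t0 ^ 2 * UX D a S (1 : Kˣ) t0 ≠ 0 :=
    mul_ne_zero (pow_ne_zero 2 hne) (UX_ne D a S hT ha 1 (by linarith))
  obtain ⟨β, hβ⟩ := abs_main (S := sysQ D a κ (fun s => Q.eval s) S)
    (isSys0Q D κ (fun s => Q.eval s) hS hST hT ha ha2) hMul
    (isAllQ D κ (fun s => Q.eval s) hS hST hT ha ha2 hLm) (P := fun s => P.eval s)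
    (g := fun t => AK t ^ 2 * UX D a S (1 : Kˣ) t) P.differentiable
    (((hA.pow 2).mul (UX_diff D S 1)).differentiableOn) hge (by linarith) hP hg0 c1 c2 hc1 hc2
    _ _ Phi hd1 hd2 hM1 hM2 hMne
  obtain ⟨b0, hb0⟩ := hGne
  refine contrQ hq (β := min β (min b0 (1 / 2))) ?_
  have cp : ∀ {f : ℂ → ℂ}, Continuous f → Continuous fun s => (nrm v0 : ℂ) ^ (f s) :=
    fun hf => hf.const_cpow (Or.inl hq0)
  have k1 : Continuous fun s : ℂ => (nrm v0 : ℂ) ^ (-s) := cp (by fun_prop)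
  have k2 : Continuous fun s : ℂ => (nrm v0 : ℂ) ^ (1 - 2 * s) := cp (by fun_prop)
  have k3 : Continuous fun s : ℂ => (nrm v0 : ℂ) ^ (t0 + s - 3 / 2 - 3 / 2) := cp (by fun_prop)
  have k4 : Continuous fun s : ℂ => (nrm v0 : ℂ) ^ (t0 - s + 1 / 2 - 1 / 2) := cp (by fun_prop)
  have k5 : Continuous fun s : ℂ => (nrm v0 : ℂ) ^ (1 - s) := cp (by fun_prop)
  have k6 : Continuous fun s : ℂ => (nrm v0 : ℂ) ^ (3 - 2 * s) := cp (by fun_prop)
  have k7 : Continuous fun s : ℂ => (nrm v0 : ℂ) ^ (t0 + s - 3 / 2 - 1 / 2) := cp (by fun_prop)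
  have k8 : Continuous fun s : ℂ => (nrm v0 : ℂ) ^ (t0 - s + 1 / 2 - 3 / 2) := cp (by fun_prop)
  refine ext_real (by fun_prop) (by fun_prop) ?_
  intro s hs him
  have hs1 : s.re < β := lt_of_lt_of_le hs (min_le_left _ _)
  have hs3 : s.re < b0 := lt_of_lt_of_le hs ((min_le_right _ _).trans (min_le_left _ _))
  have hs2 : s.re < 1 / 2 := lt_of_lt_of_le hs ((min_le_right _ _).trans (min_le_right _ _))
  have e1 : κ * (sys S D a).GG c1 s * _ * _ = κ * (sys S D a).GG c2 s * _ * _ := hβ s hs1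
  have e2 := hGG s hs2
  have e3 := hb0 s hs3 him
  apply mul_left_cancel₀ (mul_ne_zero hκ0 e3)
  linear_combination (1 + (a (nrm v0) : ℂ) * (nrm v0 : ℂ) ^ (1 - s) +
    (nrm v0 : ℂ) ^ (3 - 2 * s)) * e1 -
    κ * ((Real.sqrt (nrm v0) : ℂ) * (1 + (nrm v0 : ℂ) ^ (t0 + s - 3 / 2 - 3 / 2))) *
      (1 + (nrm v0 : ℂ) ^ (t0 - s + 1 / 2 - 1 / 2)) * e2

end Pool.Agent.UPQ
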