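import Pool.Agent.UPQ.A.Defs
import Pool.Agent.THF.K.Defs
import Pool.Agent.QD.In.Sys

/-!
# UPQ/K-Defs: definitions on the number field side
-/

namespace Pool.Agent.UPQ

open NumberField IsDedekindDomain Pool.Agent.HWR Pool.Agent.QD Pool.Agent.QD.In Pool.Agent.LD
  Pool.Agent.MD Pool.Agent.THF

section

variable {T : Finset ℕ} (D : LocData T) (a : ℕ → ℝ)

/-- `P * Lam` extends to an entire function of finite order in strips -/
def Ent (P : Polynomial ℂ) (F : Type) [Field F] [NumberField F] : Prop :=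
  ∃ A : ℂ → ℂ, Differentiable ℂ A ∧ FinOrd A ∧
    ∀ s : ℂ, 3 / 2 < s.re → A s = P.eval s * D.Lam a F s

/-- Hasse-Weil up to the zeros of `Q` -/
def HWQ (Q : Polynomial ℂ) (F : Type) [Field F] [NumberField F] : Prop :=
  ∃ A : ℂ → ℂ, Differentiable ℂ A ∧ FinOrd A ∧
    (∀ s : ℂ, 3 / 2 < s.re → A s = Q.eval s * D.Lam a F s) ∧
    ∀ s : ℂ, A s * Q.eval (2 - s) = D.w F * (A (2 - s) * Q.eval s)

/-- `HWQ` for the field and all its towers of at most `n` quadratic extensions -/
def TowQ (Q : Polynomial ℂ) : ℕ → ∀ (F : Type) [Field F] [NumberField F], Prop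
  | 0, F, _, _ => HWQ D a Q F
  | n + 1, F, _, _ => HWQ D a Q F ∧ ∀ (L : Type) [Field L] [NumberField L] [Algebra F L],
      Module.finrank F L = 2 → TowQ Q n L

end

section field

variable {K : Type} [Field K] [NumberField K] {T : Finset ℕ} (D : LocData T) (a : ℕ → ℝ)
  (κ : ℂ) (Q : ℂ → ℂ)

/-- `Q` times the completed L-function of `K(√x)` -/
def IsLmQ (x : Kˣ) (Λ : ℂ → ℂ) : Prop :=
  Differentiable ℂ Λ ∧ FinOrd Λ ∧ (∀ s : ℂ, Λ s = κ * wx D x * Λ (2 - s)) ∧
    ∀ s : ℂ, 3 / 2 < s.re → Λ s = Q s * LX D a x s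

noncomputable def LmQ (x : Kˣ) : ℂ → ℂ := Classical.epsilon (IsLmQ D a κ Q x)

variable (S : Finset (HeightOneSpectrum (𝓞 K)))

/-- `Q` times the L-function of `K(√x)` without the Euler factors at `S` -/
noncomputable def ellQ (x : Kˣ) (s : ℂ) : ℂ := LmQ D a κ Q x s * UX D a S x s

open Classical in
noncomputable def ellcQ (b : Io S →₀ ℕ) (c : GS S) (s : ℂ) : ℂ :=
  if h : Rel S b c then ellQ D a κ Q S h.choose s else 0

/-- **The system.** -/
noncomputable def sysQ : SysD :=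
  { sys S D a with
    ell := ellcQ D a κ Q S
    GG := fun c s => κ * (sys S D a).GG c s }

end field

end Pool.Agent.UPQ
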