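import Pool.Agent.UPQ.K.Defs
import Pool.Agent.QD.In.EllX

/-!
# UPQ/K-UX: the elementary factor `UX`

The computations of `ellX_diff`, `ellX_ord`, `ellX_eq`, `ellX_fe` (QD/In/EllX.lean) without the factor `Lm`.
-/

namespace Pool.Agent.UPQ

open NumberField IsDedekindDomain Pool.Agent.HWR Pool.Agent.QD Pool.Agent.QD.In Pool.Agent.LD
  Pool.Agent.MD Pool.Agent.THF

variable {K : Type} [Field K] [NumberField K] {T : Finset ℕ} (D : LocData T) {a : ℕ → ℝ}
  (S : Finset (HeightOneSpectrum (𝓞 K)))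

private theorem ux_gam1_ne {s : ℂ} (hs : 0 < s.re) : gam1 s ≠ 0 := by
  unfold gam1
  refine mul_ne_zero ?_ (Complex.Gamma_ne_zero_of_re_pos hs)
  rw [Complex.cpow_ne_zero_iff]
  left
  exact_mod_cast (by positivity : (2 * Real.pi : ℝ) ≠ 0)

private theorem ux_plx_diff (x : Kˣ) : Differentiable ℂ (plx D x) := by
  by_cases h : IsSquare x
  · have : plx D x = fun s => D.pl K s ^ 2 := by
      funext s
      unfold plx
      rw [dif_pos h]
    rw [this]
    exact (pl_diff D K).pow 2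
  · have : plx D x = D.pl (qf h).L := by
      funext s
      unfold plx
      rw [dif_neg h]
    rw [this]
    exact pl_diff D _

private theorem ux_plx_ord (x : Kˣ) : FinOrd (plx D x) := by
  by_cases h : IsSquare x
  · have : plx D x = fun s => D.pl K s ^ 2 := by
      funext s
      unfold plx
      rw [dif_pos h]
    rw [this]
    exact finOrd_pow (pl_ord D K) 2
  · have : plx D x = D.pl (qf h).L := by
      funext s
      unfold plx
      rw [dif_neg h]
    rw [this]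
    exact pl_ord D _

private theorem ux_AA_pos (x : Kˣ) : 0 < dd x ^ 2 * cdx D x :=
  mul_pos (pow_pos (dd_pos x) 2) (cdx_pos D x)

private theorem ux_prodinv_diff (s : Finset (HeightOneSpectrum (𝓞 K))) (a : ℕ → ℝ) (x : Kˣ) :
    Differentiable ℂ fun z => ∏ v ∈ s, (FF a (nrm v) (tt x v) z)⁻¹ := by
  classical
  induction s using Finset.induction_on with
  | empty => simp only [Finset.prod_empty]; exact differentiable_const _
  | insert v s hv ih =>
    simp only [Finset.prod_insert hv]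
    exact (ffi_diff a (nrm_ne_zero v) _).mul ih

private theorem ux_prodinv_ord (s : Finset (HeightOneSpectrum (𝓞 K))) (a : ℕ → ℝ) (x : Kˣ) :
    FinOrd fun z => ∏ v ∈ s, (FF a (nrm v) (tt x v) z)⁻¹ := by
  classical
  induction s using Finset.induction_on with
  | empty => simp only [Finset.prod_empty]; exact finOrd_const _
  | insert v s hv ih =>
    simp only [Finset.prod_insert hv]
    exact finOrd_mul (ffi_ord a (nrm_ne_zero v) _) ih

theorem UX_diff (x : Kˣ) : Differentiable ℂ (UX D a S x) := by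
  have hA := ux_AA_pos D x
  have h1 : Differentiable ℂ fun s : ℂ => ((dd x ^ 2 * cdx D x : ℝ) : ℂ) ^ (-s / 2) := by
    have hA' : ((dd x ^ 2 * cdx D x : ℝ) : ℂ) ≠ 0 := by exact_mod_cast hA.ne'
    exact (differentiable_id.neg.div_const 2).const_cpow (Or.inl hA')
  have h3 := ((h1.mul (invgam1_diff.pow (2 * Module.finrank ℚ K))).mul
    (ux_plx_diff D x)).mul (ux_prodinv_diff (open Classical in S.filter fun v => Away K T v) a x)
  exact h3

theorem UX_ord (x : Kˣ) : FinOrd (UX D a S x) := by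
  have hA := ux_AA_pos D x
  have h1 : FinOrd fun s : ℂ => ((dd x ^ 2 * cdx D x : ℝ) : ℂ) ^ (-s / 2) := by
    refine Z.finOrd_congr (finOrd_cpow hA (-1 / 2) 0) fun s => ?_
    congr 1
    ring
  have h3 := finOrd_mul (finOrd_mul (finOrd_mul h1
    (finOrd_pow finOrd_invgam1 (2 * Module.finrank ℚ K))) (ux_plx_ord D x))
    (ux_prodinv_ord (open Classical in S.filter fun v => Away K T v) a x)
  exact h3

theorem LX_UX (h2 : ∀ v : HeightOneSpectrum (𝓞 K), (2 : 𝓞 K) ∈ v.asIdeal → v ∈ S)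
    (hST : ∀ v, ¬ Away K T v → v ∈ S) (hT : ∀ p : ℕ, p.Prime → p < 101 → p ∈ T)
    (ha : ∀ q : ℕ, |a q| ≤ 2 * Real.sqrt q) (ha2 : SqRel K T a) (x : Kˣ) {s : ℂ}
    (hs : 3 / 2 < s.re) : LX D a x s * UX D a S x s =
      (∏' v : Io S, Pool.Agent.QD.In.ef a (nrm v.1) 1 s) *
        ∏' v : Io S, Pool.Agent.QD.In.ef a (nrm v.1) (uK v.1 x) s := by
  classical
  have hA := ux_AA_pos D x
  have hA' : ((dd x ^ 2 * cdx D x : ℝ) : ℂ) ≠ 0 := by exact_mod_cast hA.ne'
  have hg : gam1 s ≠ 0 := ux_gam1_ne (by linarith)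
  have hp : plx D x s ≠ 0 := plx_ne D x (by linarith)
  have hF : (∏ v ∈ S with Away K T v, FF a (nrm v) (tt x v) s) ≠ 0 := by
    refine Finset.prod_ne_zero_iff.2 fun v hv => ?_
    exact ff_ne ha (nrm_ge K T hT v (Finset.mem_filter.1 hv).2) _ (by linarith)
  have hc : ((dd x ^ 2 * cdx D x : ℝ) : ℂ) ^ (s / 2) *
      ((dd x ^ 2 * cdx D x : ℝ) : ℂ) ^ (-s / 2) = 1 := by
    rw [← Complex.cpow_add _ _ hA']
    have : s / 2 + -s / 2 = 0 := by ring
    rw [this, Complex.cpow_zero]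
  unfold LX UX
  rw [tprod_FF S h2 hST hT ha ha2 x hs, Finset.prod_inv_distrib]
  set P := (∏' v : Io S, ef a (nrm v.1) 1 s) * ∏' v : Io S, ef a (nrm v.1) (uK v.1 x) s
  set F := ∏ v ∈ S with Away K T v, FF a (nrm v) (tt x v) s
  set c1 := ((dd x ^ 2 * cdx D x : ℝ) : ℂ) ^ (s / 2)
  set c2 := ((dd x ^ 2 * cdx D x : ℝ) : ℂ) ^ (-s / 2)
  rw [inv_pow]
  have hgp := pow_ne_zero (2 * Module.finrank ℚ K) hg
  generalize gam1 s ^ (2 * Module.finrank ℚ K) = g at hgp
  generalize plx D x s = p at hp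
  calc c1 * g * (F * P / p) * (c2 * g⁻¹ * p * F⁻¹)
      = (c1 * c2) * (g * g⁻¹) * (p * p⁻¹) * (F * F⁻¹) * P := by
        rw [div_eq_mul_inv]
        ring
    _ = P := by
        rw [hc, mul_inv_cancel₀ hgp, mul_inv_cancel₀ hp, mul_inv_cancel₀ hF]
        ring

theorem UX_fe (hT : ∀ p : ℕ, p.Prime → p < 101 → p ∈ T)
    (ha : ∀ q : ℕ, |a q| ≤ 2 * Real.sqrt q) (x : Kˣ) {s : ℂ} (hs : s.re < 1 / 2) :
    wx D x * UX D a S x s =
      (oddN S x : ℂ) ^ (2 * (1 - s)) * GGX S D a x s * UX D a S x (2 - s) := by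
  classical
  have hre : (2 - s).re = 2 - s.re := by
    rw [Complex.sub_re]
    rfl
  have hA := ux_AA_pos D x
  have hA' : ((dd x ^ 2 * cdx D x : ℝ) : ℂ) ≠ 0 := by exact_mod_cast hA.ne'
  have hg : gam1 (2 - s) ≠ 0 := ux_gam1_ne (by linarith)
  have hp : plx D x (2 - s) ≠ 0 := plx_ne D x (by linarith)
  have hF : (∏ v ∈ S with Away K T v, FF a (nrm v) (tt x v) (2 - s)) ≠ 0 := by
    refine Finset.prod_ne_zero_iff.2 fun v hv => ?_
    exact ff_ne ha (nrm_ge K T hT v (Finset.mem_filter.1 hv).2) _ (by linarith)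
  have hN : 0 < (oddN S x : ℝ) := by exact_mod_cast oddN_pos S x
  have hD0 : 0 < D0 S x ^ 2 * cdx D x := mul_pos (pow_pos (D0_pos S x) 2) (cdx_pos D x)
  have hc : ((dd x ^ 2 * cdx D x : ℝ) : ℂ) ^ (-s / 2) =
      (oddN S x : ℂ) ^ (2 * (1 - s)) * ((D0 S x ^ 2 * cdx D x : ℝ) : ℂ) ^ (1 - s) *
        ((dd x ^ 2 * cdx D x : ℝ) : ℂ) ^ (-(2 - s) / 2) := by
    have e1 : (oddN S x : ℂ) ^ (2 * (1 - s)) = (((oddN S x : ℝ) ^ 2 : ℝ) : ℂ) ^ (1 - s) := by
      have h3 : (2 : ℂ) * (1 - s) = ((2 : ℕ) : ℂ) * (1 - s) := by norm_num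
      rw [h3, Complex.cpow_nat_mul, pow_two, pow_two, Complex.ofReal_mul,
        Complex.mul_cpow_ofReal_nonneg hN.le hN.le]
      push_cast
      rfl
    have e2 : dd x ^ 2 * cdx D x = (oddN S x : ℝ) ^ 2 * (D0 S x ^ 2 * cdx D x) := by
      rw [dd_eq S x]
      ring
    have e3 : ((dd x ^ 2 * cdx D x : ℝ) : ℂ) ^ (1 - s) =
        (((oddN S x : ℝ) ^ 2 : ℝ) : ℂ) ^ (1 - s) *
          ((D0 S x ^ 2 * cdx D x : ℝ) : ℂ) ^ (1 - s) := by
      rw [e2, Complex.ofReal_mul, Complex.mul_cpow_ofReal_nonneg (by positivity) hD0.le]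
    rw [e1, ← e3, ← Complex.cpow_add _ _ hA']
    congr 1
    ring
  unfold UX GGX
  rw [hc, Finset.prod_mul_distrib, Finset.prod_inv_distrib, Finset.prod_inv_distrib]
  rw [inv_pow, inv_pow, mul_pow, inv_pow]
  have hgp := pow_ne_zero (2 * Module.finrank ℚ K) hg
  generalize gam1 (2 - s) ^ (2 * Module.finrank ℚ K) = g at hgp
  generalize (gam1 s ^ (2 * Module.finrank ℚ K))⁻¹ = g'
  generalize plx D x (2 - s) = p at hp
  generalize (∏ v ∈ S with Away K T v, FF a (nrm v) (tt x v) (2 - s)) = F at hF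
  generalize (∏ v ∈ S with Away K T v, FF a (nrm v) (tt x v) s)⁻¹ = F'
  generalize (oddN S x : ℂ) ^ (2 * (1 - s)) = o
  generalize ((D0 S x ^ 2 * cdx D x : ℝ) : ℂ) ^ (1 - s) = c1
  generalize ((dd x ^ 2 * cdx D x : ℝ) : ℂ) ^ (-(2 - s) / 2) = c2
  generalize plx D x s = p'
  symm
  calc o * (wx D x * c1 * (g * g') * (p' * p⁻¹) * (F * F')) * (c2 * g⁻¹ * p * F⁻¹)
      = wx D x * (o * c1 * c2 * g' * p' * F') * (g * g⁻¹) * (p * p⁻¹) * (F * F⁻¹) := by ring
    _ = wx D x * (o * c1 * c2 * g' * p' * F') := by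
        rw [mul_inv_cancel₀ hgp, mul_inv_cancel₀ hp, mul_inv_cancel₀ hF]
        ring

end Pool.Agent.UPQ
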